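import Mathlib

set_option autoImplicit false

namespace Pool.Agent.Lib.MP_790f3b_al

/-- The rational Heisenberg group in exponential coordinates. -/
@[ext] structure Heis where
  a : ℚ
  b : ℚ
  c : ℚ

namespace Heis

instance : Mul Heis := ⟨fun g h => ⟨g.a + h.a, g.b + h.b, g.c + h.c + (g.a * h.b - h.a * g.b) / 2⟩⟩
instance : One Heis := ⟨⟨0, 0, 0⟩⟩
instance : Inv Heis := ⟨fun g => ⟨-g.a, -g.b, -g.c⟩⟩

@[simp] theorem mul_a (g h : Heis) : (g * h).a = g.a + h.a := rfl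
@[simp] theorem mul_b (g h : Heis) : (g * h).b = g.b + h.b := rfl
@[simp] theorem mul_c (g h : Heis) :
    (g * h).c = g.c + h.c + (g.a * h.b - h.a * g.b) / 2 := rfl
@[simp] theorem one_a : (1 : Heis).a = 0 := rfl
@[simp] theorem one_b : (1 : Heis).b = 0 := rfl
@[simp] theorem one_c : (1 : Heis).c = 0 := rfl
@[simp] theorem inv_a (g : Heis) : g⁻¹.a = -g.a := rfl
@[simp] theorem inv_b (g : Heis) : g⁻¹.b = -g.b := rfl
@[simp] theorem inv_c (g : Heis) : g⁻¹.c = -g.c := rfl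

instance : Group Heis := Group.ofLeftAxioms
  (fun g h k => by ext <;> simp <;> ring)
  (fun g => by ext <;> simp)
  (fun g => by ext <;> simp)

theorem pow_abc (g : Heis) (n : ℕ) :
    (g ^ n).a = n * g.a ∧ (g ^ n).b = n * g.b ∧ (g ^ n).c = n * g.c := by
  induction n with
  | zero => simp
  | succ n ih =>
    obtain ⟨h1, h2, h3⟩ := ih
    rw [pow_succ, mul_a, mul_b, mul_c, h1, h2, h3]
    push_cast
    refine ⟨by ring, by ring, by ring⟩

theorem zpow_abc (g : Heis) (n : ℤ) :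
    (g ^ n).a = n * g.a ∧ (g ^ n).b = n * g.b ∧ (g ^ n).c = n * g.c := by
  obtain ⟨m, rfl | rfl⟩ := n.eq_nat_or_neg
  · simpa using pow_abc g m
  · rw [zpow_neg, zpow_natCast, inv_a, inv_b, inv_c]
    obtain ⟨h1, h2, h3⟩ := pow_abc g m
    rw [h1, h2, h3]
    push_cast
    refine ⟨by ring, by ring, by ring⟩

end Heis

/-- rationals that are integral at the prime `p` -/
def Loc (p : ℕ) [Fact p.Prime] : Subring ℚ where
  carrier := {t | padicNorm p t ≤ 1}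
  mul_mem' := fun {s t} hs ht => by
    show padicNorm p (s * t) ≤ 1
    rw [padicNorm.mul]
    exact mul_le_one₀ hs (padicNorm.nonneg _) ht
  one_mem' := by show padicNorm p 1 ≤ 1; simp
  add_mem' := fun {s t} hs ht => padicNorm.nonarchimedean.trans (max_le hs ht)
  zero_mem' := by show padicNorm p 0 ≤ 1; simp
  neg_mem' := fun {s} hs => by
    show padicNorm p (-s) ≤ 1
    rwa [padicNorm.neg]

theorem mem_Loc {p : ℕ} [Fact p.Prime] {t : ℚ} : t ∈ Loc p ↔ padicNorm p t ≤ 1 := Iff.rfl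

theorem inv_nat_mem_Loc {p : ℕ} [Fact p.Prime] {n : ℕ} (h : ¬ p ∣ n) : ((n : ℚ))⁻¹ ∈ Loc p := by
  rw [mem_Loc, ← one_div, padicNorm.div, (padicNorm.nat_eq_one_iff n).2 h]
  simp

theorem inv_self_not_mem_Loc {p : ℕ} [hp : Fact p.Prime] : ((p : ℚ))⁻¹ ∉ Loc p := by
  rw [mem_Loc, ← one_div, padicNorm.div, padicNorm.padicNorm_p_of_prime]
  have : (1 : ℚ) < p := by exact_mod_cast hp.out.one_lt
  simpa using this

theorem half_mem_Loc {p : ℕ} [hp : Fact p.Prime] (h : p ≠ 2) : (2 : ℚ)⁻¹ ∈ Loc p := by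
  have := inv_nat_mem_Loc (p := p) (n := 2) (fun hd =>
    h ((Nat.prime_dvd_prime_iff_eq hp.out Nat.prime_two).1 hd))
  simpa using this

theorem mem_Loc_of_lt {p : ℕ} [hp : Fact p.Prime] {t : ℚ} (h : t.den < p) : t ∈ Loc p := by
  have h1 : t = (t.num : ℚ) * ((t.den : ℚ))⁻¹ := by
    rw [← div_eq_mul_inv, Rat.num_div_den]
  rw [h1]
  exact (Loc p).mul_mem (intCast_mem _ _)
    (inv_nat_mem_Loc fun hd => absurd (Nat.le_of_dvd t.den_pos hd) (not_le.2 h))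

/-- The counterexample, as a subgroup of the rational Heisenberg group. -/
def GG : Subgroup Heis where
  carrier := {g | (g.a ∈ Loc 2 ∧ g.b ∈ Loc 2 ∧ g.c - g.a * g.b / 2 ∈ Loc 2) ∧
    ∀ (p : ℕ) [Fact p.Prime], p ≠ 2 →
      p * g.a ∈ Loc p ∧ g.b - (p % 5 : ℕ) * g.a ∈ Loc p ∧ p * g.c ∈ Loc p}
  mul_mem' := by
    rintro g h ⟨⟨g1, g2, g3⟩, g4⟩ ⟨⟨h1, h2, h3⟩, h4⟩
    refine ⟨⟨(Loc 2).add_mem g1 h1, (Loc 2).add_mem g2 h2, ?_⟩, fun p _ hp => ?_⟩
    · have : (g * h).c - (g * h).a * (g * h).b / 2 =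
          (g.c - g.a * g.b / 2) + (h.c - h.a * h.b / 2) - h.a * g.b := by
        simp only [Heis.mul_a, Heis.mul_b, Heis.mul_c]; ring
      rw [this]
      exact (Loc 2).sub_mem ((Loc 2).add_mem g3 h3) ((Loc 2).mul_mem h1 g2)
    · obtain ⟨a1, a2, a3⟩ := g4 p hp
      obtain ⟨b1, b2, b3⟩ := h4 p hp
      refine ⟨?_, ?_, ?_⟩
      · rw [Heis.mul_a, mul_add]; exact (Loc p).add_mem a1 b1
      · have : (g * h).b - (p % 5 : ℕ) * (g * h).a =
            (g.b - (p % 5 : ℕ) * g.a) + (h.b - (p % 5 : ℕ) * h.a) := by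
          simp only [Heis.mul_a, Heis.mul_b]; ring
        rw [this]; exact (Loc p).add_mem a2 b2
      · have : p * (g * h).c = p * g.c + p * h.c +
            ((p * g.a) * (h.b - (p % 5 : ℕ) * h.a) - (p * h.a) * (g.b - (p % 5 : ℕ) * g.a)) *
              (2 : ℚ)⁻¹ := by
          simp only [Heis.mul_c]; ring
        rw [this]
        exact (Loc p).add_mem ((Loc p).add_mem a3 b3) ((Loc p).mul_mem
          ((Loc p).sub_mem ((Loc p).mul_mem a1 b2) ((Loc p).mul_mem b1 a2)) (half_mem_Loc hp))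
  one_mem' := by
    refine ⟨⟨(Loc 2).zero_mem, (Loc 2).zero_mem, by simp⟩, fun p _ _ => ?_⟩
    simp
  inv_mem' := by
    rintro g ⟨⟨g1, g2, g3⟩, g4⟩
    refine ⟨⟨(Loc 2).neg_mem g1, (Loc 2).neg_mem g2, ?_⟩, fun p _ hp => ?_⟩
    · have : g⁻¹.c - g⁻¹.a * g⁻¹.b / 2 = -(g.c - g.a * g.b / 2) - g.a * g.b := by
        simp only [Heis.inv_a, Heis.inv_b, Heis.inv_c]; ring
      rw [this]
      exact (Loc 2).sub_mem ((Loc 2).neg_mem g3) ((Loc 2).mul_mem g1 g2)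
    · obtain ⟨a1, a2, a3⟩ := g4 p hp
      refine ⟨?_, ?_, ?_⟩
      · rw [Heis.inv_a, mul_neg]; exact (Loc p).neg_mem a1
      · have : g⁻¹.b - (p % 5 : ℕ) * g⁻¹.a = -(g.b - (p % 5 : ℕ) * g.a) := by
          simp only [Heis.inv_a, Heis.inv_b]; ring
        rw [this]; exact (Loc p).neg_mem a2
      · rw [Heis.inv_c, mul_neg]; exact (Loc p).neg_mem a3

/-- the three coordinates on the counterexample -/
def ca (g : GG) : ℚ := g.1.a
def cb (g : GG) : ℚ := g.1.b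
def cc (g : GG) : ℚ := g.1.c

theorem gext {g h : GG} (h1 : ca g = ca h) (h2 : cb g = cb h) (h3 : cc g = cc h) : g = h :=
  Subtype.ext (Heis.ext h1 h2 h3)

@[simp] theorem ca_mul (g h : GG) : ca (g * h) = ca g + ca h := rfl
@[simp] theorem cb_mul (g h : GG) : cb (g * h) = cb g + cb h := rfl
@[simp] theorem cc_mul (g h : GG) :
    cc (g * h) = cc g + cc h + (ca g * cb h - ca h * cb g) / 2 := rfl
@[simp] theorem ca_one : ca 1 = 0 := rfl
@[simp] theorem cb_one : cb 1 = 0 := rfl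
@[simp] theorem cc_one : cc 1 = 0 := rfl
@[simp] theorem ca_inv (g : GG) : ca g⁻¹ = -ca g := rfl
@[simp] theorem cb_inv (g : GG) : cb g⁻¹ = -cb g := rfl
@[simp] theorem cc_inv (g : GG) : cc g⁻¹ = -cc g := rfl
@[simp] theorem ca_pow (g : GG) (n : ℕ) : ca (g ^ n) = n * ca g := (Heis.pow_abc g.1 n).1
@[simp] theorem cb_pow (g : GG) (n : ℕ) : cb (g ^ n) = n * cb g := (Heis.pow_abc g.1 n).2.1
@[simp] theorem cc_pow (g : GG) (n : ℕ) : cc (g ^ n) = n * cc g := (Heis.pow_abc g.1 n).2.2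
@[simp] theorem ca_zpow (g : GG) (n : ℤ) : ca (g ^ n) = n * ca g := (Heis.zpow_abc g.1 n).1
@[simp] theorem cb_zpow (g : GG) (n : ℤ) : cb (g ^ n) = n * cb g := (Heis.zpow_abc g.1 n).2.1
@[simp] theorem cc_zpow (g : GG) (n : ℤ) : cc (g ^ n) = n * cc g := (Heis.zpow_abc g.1 n).2.2

theorem int_mem (a b c : ℤ) (h : a * b = 0) : (⟨a, b, c⟩ : Heis) ∈ GG := by
  have h' : (a : ℚ) * b = 0 := by exact_mod_cast h
  refine ⟨⟨intCast_mem _ _, intCast_mem _ _, ?_⟩, fun p _ _ => ⟨?_, ?_, ?_⟩⟩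
  · simp only [h', zero_div, sub_zero]; exact intCast_mem _ _
  · exact (Loc p).mul_mem (natCast_mem _ _) (intCast_mem _ _)
  · exact (Loc p).sub_mem (intCast_mem _ _)
      ((Loc p).mul_mem (natCast_mem _ _) (intCast_mem _ _))
  · exact (Loc p).mul_mem (natCast_mem _ _) (intCast_mem _ _)

def gx : GG := ⟨⟨(1 : ℤ), (0 : ℤ), (0 : ℤ)⟩, int_mem 1 0 0 (by simp)⟩
def gy : GG := ⟨⟨(0 : ℤ), (1 : ℤ), (0 : ℤ)⟩, int_mem 0 1 0 (by simp)⟩
def gz : GG := ⟨⟨(0 : ℤ), (0 : ℤ), (1 : ℤ)⟩, int_mem 0 0 1 (by simp)⟩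

@[simp] theorem ca_gx : ca gx = 1 := by simp [ca, gx]
@[simp] theorem cb_gx : cb gx = 0 := by simp [cb, gx]
@[simp] theorem cc_gx : cc gx = 0 := by simp [cc, gx]
@[simp] theorem ca_gy : ca gy = 0 := by simp [ca, gy]
@[simp] theorem cb_gy : cb gy = 1 := by simp [cb, gy]
@[simp] theorem cc_gy : cc gy = 0 := by simp [cc, gy]
@[simp] theorem ca_gz : ca gz = 0 := by simp [ca, gz]
@[simp] theorem cb_gz : cb gz = 0 := by simp [cb, gz]
@[simp] theorem cc_gz : cc gz = 1 := by simp [cc, gz]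

theorem xy_eq : gx * gy = gz * (gy * gx) := by
  apply gext <;> simp; norm_num

/-- elements with trivial first two coordinates -/
def Cen (w : GG) : Prop := ca w = 0 ∧ cb w = 0

theorem Cen.comm {w : GG} (h : Cen w) (g : GG) : w * g = g * w := by
  apply gext <;> simp [h.1, h.2, add_comm]

theorem cen_gz : Cen gz := ⟨ca_gz, cb_gz⟩

theorem exists_comm (g h : GG) :
    ∃ w, Cen w ∧ cc w = ca g * cb h - ca h * cb g ∧ g * h = w * (h * g) := by
  refine ⟨g * h * (h * g)⁻¹, ⟨by simp; ring, by simp; ring⟩, by simp; ring, by group⟩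

theorem Cen.pow_eq {w : GG} (h : Cen w) : w ^ (cc w).den = gz ^ (cc w).num := by
  apply gext
  · simp [h.1]
  · simp [h.2]
  · simp only [cc_pow, cc_zpow, cc_gz, mul_one]
    rw [mul_comm]; exact Rat.mul_den_eq_num _

theorem cen_ne_half {w : GG} (h : Cen w) : cc w ≠ 1 / 2 := by
  intro h1
  have h2 : w.1.c - w.1.a * w.1.b / 2 ∈ Loc 2 := w.2.1.2.2
  have e1 : w.1.a = 0 := h.1
  have e2 : w.1.c = 1 / 2 := h1
  rw [e1, e2] at h2
  apply inv_self_not_mem_Loc (p := 2)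
  simpa using h2

theorem bounded (g : GG) (p : ℕ) [Fact p.Prime] (hp : p ≠ 2) :
    p * ca g ∈ Loc p ∧ p * cb g ∈ Loc p ∧ p * cc g ∈ Loc p := by
  obtain ⟨a1, a2, a3⟩ := g.2.2 p hp
  refine ⟨a1, ?_, a3⟩
  have : p * cb g = p * (g.1.b - (p % 5 : ℕ) * g.1.a) + (p % 5 : ℕ) * (p * g.1.a) := by
    simp only [cb]; ring
  rw [this]
  exact (Loc p).add_mem ((Loc p).mul_mem (natCast_mem _ _) a2)
    ((Loc p).mul_mem (natCast_mem _ _) a1)

theorem exists_div (p : ℕ) [hp : Fact p.Prime] (h2 : p ≠ 2) :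
    ∃ g : GG, ca g = (p : ℚ)⁻¹ ∧ cb g = (p % 5 : ℕ) * (p : ℚ)⁻¹ := by
  have hp0 : (p : ℚ) ≠ 0 := by exact_mod_cast hp.out.ne_zero
  have hodd : ¬ 2 ∣ p := fun hd =>
    h2 ((Nat.prime_dvd_prime_iff_eq Nat.prime_two hp.out).1 hd).symm
  have hi : ((p : ℚ))⁻¹ ∈ Loc 2 := inv_nat_mem_Loc hodd
  obtain ⟨m, hm⟩ : ∃ m : ℕ, p = 2 * m + 1 := ⟨p / 2, by omega⟩
  refine ⟨⟨⟨(p : ℚ)⁻¹, (p % 5 : ℕ) * (p : ℚ)⁻¹, (p % 5 : ℕ) * (2 : ℚ)⁻¹⟩,
    ⟨hi, (Loc 2).mul_mem (natCast_mem _ _) hi, ?_⟩, fun q hq hq2 => ?_⟩, rfl, rfl⟩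
  · have : ((p % 5 : ℕ) : ℚ) * (2 : ℚ)⁻¹ - (p : ℚ)⁻¹ * ((p % 5 : ℕ) * (p : ℚ)⁻¹) / 2 =
        (p % 5 : ℕ) * ((2 * m * (m + 1) : ℕ) : ℚ) * ((p : ℚ)⁻¹ * (p : ℚ)⁻¹) := by
      have hm' : (p : ℚ) = 2 * m + 1 := by exact_mod_cast hm
      field_simp
      push_cast
      rw [hm']; ring
    simp only
    rw [this]
    exact (Loc 2).mul_mem ((Loc 2).mul_mem (natCast_mem _ _) (natCast_mem _ _))
      ((Loc 2).mul_mem hi hi)
  · simp only
    refine ⟨?_, ?_, (Loc q).mul_mem (natCast_mem _ _)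
      ((Loc q).mul_mem (natCast_mem _ _) (half_mem_Loc hq2))⟩
    · by_cases hqp : q = p
      · subst hqp
        rw [mul_inv_cancel₀ hp0]; exact (Loc q).one_mem
      · exact (Loc q).mul_mem (natCast_mem _ _) (inv_nat_mem_Loc fun hd =>
          hqp ((Nat.prime_dvd_prime_iff_eq hq.out hp.out).1 hd))
    · by_cases hqp : q = p
      · subst hqp
        rw [sub_self]; exact (Loc q).zero_mem
      · have hi' : ((p : ℚ))⁻¹ ∈ Loc q := inv_nat_mem_Loc fun hd =>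
          hqp ((Nat.prime_dvd_prime_iff_eq hq.out hp.out).1 hd)
        exact (Loc q).sub_mem ((Loc q).mul_mem (natCast_mem _ _) hi')
          ((Loc q).mul_mem (natCast_mem _ _) hi')

/-- a subgroup containing `gx` and `gy` contains a power of every element -/
theorem pow_mem_of (P : Subgroup GG) (hx : gx ∈ P) (hy : gy ∈ P) (g : GG) :
    ∃ N : ℕ, 0 < N ∧ g ^ N ∈ P := by
  have hz : gz ∈ P := by
    have : gz = gx * gy * (gy * gx)⁻¹ := by rw [xy_eq]; group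
    rw [this]
    exact P.mul_mem (P.mul_mem hx hy) (P.inv_mem (P.mul_mem hy hx))
  set N := (ca g).den * (cb g).den with hN
  set s := gx ^ ((ca g).num * (cb g).den) * gy ^ ((cb g).num * (ca g).den) with hs
  have hsP : s ∈ P := P.mul_mem (P.zpow_mem hx _) (P.zpow_mem hy _)
  have hw : Cen (g ^ N * s⁻¹) := by
    have e1 := Rat.mul_den_eq_num (ca g)
    have e2 := Rat.mul_den_eq_num (cb g)
    constructor
    · simp only [hs, hN, ca_mul, ca_pow, ca_inv, ca_zpow, ca_gx, ca_gy]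
      push_cast
      rw [← e1]; ring
    · simp only [hs, hN, cb_mul, cb_pow, cb_inv, cb_zpow, cb_gx, cb_gy]
      push_cast
      rw [← e2]; ring
  refine ⟨N * (cc (g ^ N * s⁻¹)).den, Nat.mul_pos (Nat.mul_pos (ca g).den_pos (cb g).den_pos)
    (Rat.den_pos _), ?_⟩
  have e3 : g ^ N = (g ^ N * s⁻¹) * s := by group
  have hc : Commute (g ^ N * s⁻¹) s := hw.comm s
  rw [pow_mul, e3, hc.mul_pow, ← e3, hw.pow_eq]
  exact P.mul_mem (P.zpow_mem hz _) (P.pow_mem hsP _)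

/-- additive maps to the rationals are determined by the values on `gx` and `gy` -/
theorem add_map_eq (θ : GG → ℚ) (hθ : ∀ g h, θ (g * h) = θ g + θ h) (g : GG) :
    θ g = ca g * θ gx + cb g * θ gy := by
  have h1 : θ 1 = 0 := by have := hθ 1 1; rw [mul_one] at this; linarith
  have hinv : ∀ g, θ g⁻¹ = -θ g := fun g => by
    have := hθ g g⁻¹; rw [mul_inv_cancel, h1] at this; linarith
  have hpow : ∀ g (n : ℕ), θ (g ^ n) = n * θ g := fun g n => by
    induction n with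
    | zero => simp [h1]
    | succ n ih => rw [pow_succ, hθ, ih]; push_cast; ring
  let P : Subgroup GG :=
    { carrier := {g | θ g = ca g * θ gx + cb g * θ gy}
      mul_mem' := fun {g h} hg hh => by
        simp only [Set.mem_ofPred_eq] at hg hh ⊢
        rw [hθ, hg, hh, ca_mul, cb_mul]; ring
      one_mem' := by simp [h1]
      inv_mem' := fun {g} hg => by
        simp only [Set.mem_ofPred_eq] at hg ⊢
        rw [hinv, hg, ca_inv, cb_inv]; ring }
  obtain ⟨N, hN, hP⟩ := pow_mem_of P (by simp [P]) (by simp [P]) g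
  have hP' : θ (g ^ N) = ca (g ^ N) * θ gx + cb (g ^ N) * θ gy := hP
  rw [hpow, ca_pow, cb_pow] at hP'
  have hN' : (N : ℚ) ≠ 0 := by exact_mod_cast hN.ne'
  apply mul_left_cancel₀ hN'
  rw [hP']; ring

theorem commutator_le : commutator GG ≤ Subgroup.center GG := by
  rw [commutator_def, Subgroup.commutator_le]
  intro g _ h _
  rw [Subgroup.mem_center_iff]
  intro k
  have : Cen (g * h * g⁻¹ * h⁻¹) := ⟨by simp, by simp⟩
  exact (this.comm k).symm

theorem not_comm : gx * gy ≠ gy * gx := by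
  intro h
  have := congrArg cc h
  simp at this
  norm_num at this

end Pool.Agent.Lib.MP_790f3b_al
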