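import Mathlib
import Pool.Agent.Lib.MP_790f3b_al.Grp

set_option autoImplicit false

open Polynomial

namespace Pool.Agent.Lib.MP_790f3b_al

theorem intJacobson : IsJacobsonRing ℤ := by
  rw [isJacobsonRing_iff_prime_eq]
  intro P hP
  by_cases h : P = ⊥
  · subst h
    rw [eq_bot_iff]
    intro x hx
    have := Ideal.mem_jacobson_bot.1 hx x
    rw [Int.isUnit_iff] at this
    have h0 : x = 0 := by rcases this with h | h <;> nlinarith
    simp [h0]
  · have : P.IsMaximal := Ring.DimensionLEOne.maximalOfPrime h hP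
    exact Ideal.jacobson_eq_self_of_isMaximal

theorem exists_int_rel (v : Fin 3 → ℚ × ℚ) :
    ∃ n : Fin 3 → ℤ, ∑ i, n i • v i = 0 ∧ ∃ i, n i ≠ 0 := by
  rw [← Fintype.not_linearIndependent_iff, LinearIndependent.iff_fractionRing ℤ ℚ]
  intro h
  have := h.fintype_card_le_finrank
  simp at this

section

variable {R : Type*} [CommRing R] [IsJacobsonRing R]

theorem nilpotent_of_rel (t : R) (Rel : GG → R → Prop)
    (hone : Rel 1 1)
    (hmul : ∀ g h a b, Rel g a → Rel h b → Rel (g * h) (a * b))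
    (huniq : ∀ g a b, Rel g a → Rel g b → a = b)
    (hreg : ∀ g a, Rel g a → ∀ r, a * r = 0 → r = 0)
    (hsurj : ∀ r, ∃ g, Rel g (1 + t * r)) : IsNilpotent t := by
  by_contra hnil
  have hpow : ∀ g a (n : ℕ), Rel g a → Rel (g ^ n) (a ^ n) := by
    intro g a n h
    induction n with
    | zero => simpa using hone
    | succ n ih => rw [pow_succ, pow_succ]; exact hmul _ _ _ _ ih h
  have step1 : ∀ g b, Rel g b → ∃ g' a, Rel g' a ∧ ¬ IsUnit a ∧ IsCoprime a b := by
    intro g b hb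
    have h1 : ¬ IsNilpotent (t * b) := by
      rintro ⟨k, hk⟩
      apply hnil
      refine ⟨k, hreg _ _ (hpow g b k hb) _ ?_⟩
      rw [← hk]; ring
    have h2 : t * b ∉ Ideal.jacobson (⊥ : Ideal R) := by
      rw [← Ideal.radical_eq_jacobson]
      intro h
      exact h1 (by simpa [Ideal.radical, IsNilpotent] using h)
    rw [Ideal.mem_jacobson_bot] at h2
    push Not at h2
    obtain ⟨y, hy⟩ := h2
    obtain ⟨g', hg'⟩ := hsurj (b * y)
    refine ⟨g', _, hg', ?_, ⟨1, -(t * y), by ring⟩⟩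
    convert hy using 2
    ring
  have step2 : ∀ g b, Rel g b → ∃ P α Q β, Rel P α ∧ Rel Q β ∧ ca P = ca Q ∧ cb P = cb Q ∧
      IsCoprime α β ∧ IsCoprime (α * β) b ∧ ¬ IsUnit (α * β) := by
    intro g b hb
    obtain ⟨g0, a0, r0, u0, c0⟩ := step1 g b hb
    obtain ⟨g1, a1, r1, u1, c1⟩ := step1 _ _ (hmul _ _ _ _ hb r0)
    obtain ⟨g2, a2, r2, u2, c2⟩ := step1 _ _ (hmul _ _ _ _ (hmul _ _ _ _ hb r0) r1)
    have c10 : IsCoprime a1 a0 := c1.of_mul_right_right
    have c1b : IsCoprime a1 b := c1.of_mul_right_left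
    have c21 : IsCoprime a2 a1 := c2.of_mul_right_right
    have c20 : IsCoprime a2 a0 := c2.of_mul_right_left.of_mul_right_right
    have c2b : IsCoprime a2 b := c2.of_mul_right_left.of_mul_right_left
    obtain ⟨n, hn, hne⟩ := exists_int_rel ![(ca g0, cb g0), (ca g1, cb g1), (ca g2, cb g2)]
    simp only [Fin.sum_univ_three, Matrix.cons_val_zero, Matrix.cons_val_one, Matrix.cons_val,
      Prod.smul_mk, Prod.mk_add_mk, Prod.mk_eq_zero] at hn
    simp only [zsmul_eq_mul] at hn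
    have hq : ∀ m : ℤ, ((m.toNat : ℚ)) = ((-m).toNat : ℚ) + m := by
      intro m
      have : (m.toNat : ℤ) = ((-m).toNat : ℤ) + m := by omega
      exact_mod_cast this
    have hself : ∀ (a : R) (m : ℤ), IsCoprime (a ^ m.toNat) (a ^ (-m).toNat) := by
      intro a m
      rcases le_total m 0 with h | h
      · rw [Int.toNat_eq_zero.2 h, pow_zero]; exact isCoprime_one_left
      · rw [Int.toNat_eq_zero.2 (by omega : -m ≤ 0), pow_zero]; exact isCoprime_one_right
    have hdvd : ∀ (a : R) (m : ℤ), m ≠ 0 → a ∣ a ^ m.toNat * a ^ (-m).toNat := by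
      intro a m hm
      rw [← pow_add]
      exact dvd_pow_self a (by omega)
    refine ⟨g0 ^ (n 0).toNat * g1 ^ (n 1).toNat * g2 ^ (n 2).toNat,
      a0 ^ (n 0).toNat * a1 ^ (n 1).toNat * a2 ^ (n 2).toNat,
      g0 ^ (-n 0).toNat * g1 ^ (-n 1).toNat * g2 ^ (-n 2).toNat,
      a0 ^ (-n 0).toNat * a1 ^ (-n 1).toNat * a2 ^ (-n 2).toNat,
      hmul _ _ _ _ (hmul _ _ _ _ (hpow _ _ _ r0) (hpow _ _ _ r1)) (hpow _ _ _ r2),
      hmul _ _ _ _ (hmul _ _ _ _ (hpow _ _ _ r0) (hpow _ _ _ r1)) (hpow _ _ _ r2), ?_, ?_, ?_,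
      ?_, ?_⟩
    · simp only [ca_mul, ca_pow]
      rw [hq (n 0), hq (n 1), hq (n 2)]
      linear_combination hn.1
    · simp only [cb_mul, cb_pow]
      rw [hq (n 0), hq (n 1), hq (n 2)]
      linear_combination hn.2
    · refine IsCoprime.mul_left (IsCoprime.mul_left ?_ ?_) ?_
      · exact ((hself _ _).mul_right c10.symm.pow).mul_right c20.symm.pow
      · exact (c10.pow.mul_right (hself _ _)).mul_right c21.symm.pow
      · exact (c20.pow.mul_right c21.pow).mul_right (hself _ _)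
    · exact ((c0.pow_left.mul_left c1b.pow_left).mul_left c2b.pow_left).mul_left
        ((c0.pow_left.mul_left c1b.pow_left).mul_left c2b.pow_left)
    · intro hu
      have e : a0 ^ (n 0).toNat * a1 ^ (n 1).toNat * a2 ^ (n 2).toNat *
          (a0 ^ (-n 0).toNat * a1 ^ (-n 1).toNat * a2 ^ (-n 2).toNat) =
          (a0 ^ (n 0).toNat * a0 ^ (-n 0).toNat) * (a1 ^ (n 1).toNat * a1 ^ (-n 1).toNat) *
            (a2 ^ (n 2).toNat * a2 ^ (-n 2).toNat) := by ring
      rw [e] at hu
      obtain ⟨i, hi⟩ := hne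
      fin_cases i
      · exact u0 (isUnit_of_dvd_unit (hdvd a0 _ hi)
          (isUnit_of_mul_isUnit_left (isUnit_of_mul_isUnit_left hu)))
      · exact u1 (isUnit_of_dvd_unit (hdvd a1 _ hi)
          (isUnit_of_mul_isUnit_right (isUnit_of_mul_isUnit_left hu)))
      · exact u2 (isUnit_of_dvd_unit (hdvd a2 _ hi) (isUnit_of_mul_isUnit_right hu))
  have step3 : ∀ g b, Rel g b → ∃ P α Q β, Rel P α ∧ Rel Q β ∧ ca P = ca Q ∧ cb P = cb Q ∧
      IsCoprime α β ∧ IsCoprime (α * β) b ∧ ¬ IsUnit (α * β) ∧ cc Q < cc P := by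
    intro g b hb
    obtain ⟨P, α, Q, β, h1, h2, h3, h4, h5, h6, h7⟩ := step2 g b hb
    rcases lt_trichotomy (cc Q) (cc P) with h | h | h
    · exact ⟨P, α, Q, β, h1, h2, h3, h4, h5, h6, h7, h⟩
    · exfalso
      have e : P = Q := gext h3 h4 h.symm
      subst e
      have e2 := huniq _ _ _ h1 h2
      subst e2
      exact h7 ((isCoprime_self.1 h5).mul (isCoprime_self.1 h5))
    · exact ⟨Q, β, P, α, h2, h1, h3.symm, h4.symm, h5.symm, by rwa [mul_comm],
        by rwa [mul_comm], h⟩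
  obtain ⟨P, α, Q, β, h1, h2, h3, h4, h5, -, h7, h8⟩ := step3 1 1 hone
  obtain ⟨P', α', Q', β', k1, k2, k3, k4, -, k6, -, k8⟩ := step3 _ _ (hmul _ _ _ _ h1 h2)
  set r := cc P - cc Q with hr
  set r' := cc P' - cc Q' with hr'
  have r0 : 0 < r := sub_pos.2 h8
  have r0' : 0 < r' := sub_pos.2 k8
  obtain ⟨a, b, ha, hab⟩ : ∃ a b : ℕ, a ≠ 0 ∧ a * r = b * r' := by
    have q0 : 0 < r / r' := div_pos r0 r0'
    refine ⟨(r / r').den, (r / r').num.toNat, (r / r').den_nz, ?_⟩
    have e1 := Rat.mul_den_eq_num (r / r')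
    have e2 : (((r / r').num.toNat : ℤ) : ℚ) = (r / r').num := by
      rw [Int.toNat_of_nonneg (Rat.num_nonneg.2 q0.le)]
    rw [Int.cast_natCast] at e2
    rw [e2, ← e1]
    field_simp
  have e : P ^ a * Q' ^ b = Q ^ a * P' ^ b := by
    apply gext
    · simp only [ca_mul, ca_pow, h3, k3]
    · simp only [cb_mul, cb_pow, h4, k4]
    · simp only [cc_mul, ca_pow, cb_pow, cc_pow, h3, h4, k3, k4]
      rw [hr, hr'] at hab
      linear_combination hab
  have e2 : α ^ a * β' ^ b = β ^ a * α' ^ b :=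
    huniq _ _ _ (hmul _ _ _ _ (hpow _ _ a h1) (hpow _ _ b k2))
      (e ▸ hmul _ _ _ _ (hpow _ _ a h2) (hpow _ _ b k1))
  have cαα : IsCoprime α α' := k6.of_mul_left_left.of_mul_right_left.symm
  have cββ : IsCoprime β β' := k6.of_mul_left_right.of_mul_right_right.symm
  have uα : IsUnit α := by
    refine IsCoprime.isUnit_of_dvd (h5.pow_right (n := a) |>.mul_right (cαα.pow_right (n := b))) ?_
    rw [← e2]
    exact Dvd.dvd.mul_right (dvd_pow_self α ha) _
  have uβ : IsUnit β := by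
    refine IsCoprime.isUnit_of_dvd
      (h5.symm.pow_right (n := a) |>.mul_right (cββ.pow_right (n := b))) ?_
    rw [e2]
    exact Dvd.dvd.mul_right (dvd_pow_self β ha) _
  exact h7 (uα.mul uβ)

end

theorem key_id {V : Type*} [AddCommGroup V] (ρ : GG →* Module.End ℤ V) (π : GG → V)
    (hπ : ∀ g h, π (g * h) = π g + ρ g (π h)) {g h : GG} (hc : π (g * h) = π (h * g)) :
    (ρ g - 1) (π h) = (ρ h - 1) (π g) := by
  rw [hπ, hπ] at hc
  simp only [LinearMap.sub_apply, Module.End.one_apply]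
  rw [sub_eq_sub_iff_add_eq_add, add_comm, hc, add_comm]

/-- an element that commutes with everything (as seen by `ρ` and `π`) acts unipotently -/
theorem unipotent {V : Type*} [AddCommGroup V] (ρ : GG →* Module.End ℤ V) (π : GG → V)
    (hπ : ∀ g h, π (g * h) = π g + ρ g (π h)) (hs : Function.Surjective π) (h : GG)
    (hc : ∀ g, Commute (ρ g) (ρ h)) (hc' : ∀ g, π (g * h) = π (h * g)) :
    IsNilpotent (ρ h - 1) := by
  have := intJacobson
  set φ := ρ h - 1 with hφ
  set u := π h with hu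
  have hcφ : ∀ g, Commute (ρ g) φ := fun g => (hc g).sub_right (Commute.one_right _)
  have hcf : ∀ g (f : ℤ[X]), Commute (ρ g) (aeval φ f) := by
    intro g f
    induction f using Polynomial.induction_on' with
    | add p q hp hq => rw [map_add]; exact hp.add_right hq
    | monomial n a =>
      rw [aeval_monomial]
      exact Commute.mul_right (Algebra.commutes a (ρ g)).symm ((hcφ g).pow_right n)
  have hcf' : ∀ g (f : ℤ[X]) v, ρ g (aeval φ f v) = aeval φ f (ρ g v) := by
    intro g f v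
    rw [← Module.End.mul_apply, (hcf g f).eq, Module.End.mul_apply]
  have key : ∀ g, ρ g u = u + φ (π g) := by
    intro g
    rw [← key_id ρ π hπ (hc' g)]
    simp [hu]
  have hinj : ∀ g v, ρ g v = 0 → v = 0 := by
    intro g v hv
    have : ρ g⁻¹ (ρ g v) = v := by
      rw [← Module.End.mul_apply, ← map_mul, inv_mul_cancel, map_one, Module.End.one_apply]
    rw [← this, hv, map_zero]
  let I : Ideal ℤ[X] :=
    { carrier := {f | aeval φ f u = 0}
      add_mem' := fun {f g} hf hg => by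
        simp only [Set.mem_ofPred_eq] at hf hg ⊢
        rw [map_add, LinearMap.add_apply, hf, hg, add_zero]
      zero_mem' := by simp
      smul_mem' := fun c f hf => by
        simp only [Set.mem_ofPred_eq] at hf ⊢
        rw [smul_eq_mul, map_mul, Module.End.mul_apply, hf, map_zero] }
  have hI : ∀ f, f ∈ I ↔ aeval φ f u = 0 := fun f => Iff.rfl
  have hnil := nilpotent_of_rel (Ideal.Quotient.mk I X)
    (fun g a => ∃ f, Ideal.Quotient.mk I f = a ∧ ρ g u = aeval φ f u)
    ⟨1, map_one _, by simp⟩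
    (by
      rintro g g' _ _ ⟨f, rfl, hf⟩ ⟨f', rfl, hf'⟩
      refine ⟨f * f', map_mul _ _ _, ?_⟩
      rw [map_mul, Module.End.mul_apply, hf', hcf', hf, mul_comm f f', map_mul,
        Module.End.mul_apply])
    (by
      rintro g _ _ ⟨f, rfl, hf⟩ ⟨f', rfl, hf'⟩
      rw [Ideal.Quotient.eq, hI, map_sub, LinearMap.sub_apply, ← hf, ← hf', sub_self])
    (by
      rintro g _ ⟨f, rfl, hf⟩ r hr
      obtain ⟨f', rfl⟩ := Ideal.Quotient.mk_surjective r
      rw [← map_mul, Ideal.Quotient.eq_zero_iff_mem, hI, mul_comm, map_mul,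
        Module.End.mul_apply, ← hf, ← hcf'] at hr
      rw [Ideal.Quotient.eq_zero_iff_mem, hI]
      exact hinj _ _ hr)
    (by
      intro r
      obtain ⟨f, rfl⟩ := Ideal.Quotient.mk_surjective r
      obtain ⟨g, hg⟩ := hs (aeval φ f u)
      refine ⟨g, 1 + X * f, by simp, ?_⟩
      rw [key, hg]
      simp)
  obtain ⟨k, hk⟩ := hnil
  rw [← map_pow, Ideal.Quotient.eq_zero_iff_mem, hI, map_pow, aeval_X] at hk
  refine ⟨k + 1, ?_⟩
  ext m
  obtain ⟨g, rfl⟩ := hs m
  have e1 : φ (π g) = ρ g u - u := by rw [key]; abel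
  have e2 : (φ ^ k) (ρ g u) = ρ g ((φ ^ k) u) := by
    rw [← Module.End.mul_apply, ← ((hcφ g).pow_right k).eq, Module.End.mul_apply]
  rw [pow_succ, Module.End.mul_apply, e1, map_sub, e2, hk, map_zero, sub_self,
    LinearMap.zero_apply]

end Pool.Agent.Lib.MP_790f3b_al
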