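import Mathlib
import Pool.Agent.Lib.MP_790f3b_al.Unip

set_option autoImplicit false

namespace Pool.Agent.Lib.MP_790f3b_al

section Fixed

variable {U : Type*} [AddCommGroup U] [Module ℚ U]

theorem fixed_of_pow (T : Module.End ℚ U) (hT : IsNilpotent (T - 1)) {N : ℕ} (hN : 0 < N)
    {v : U} (hv : (T ^ N) v = v) : T v = v := by
  set S := ∑ i ∈ Finset.range N, T ^ i with hS
  have h1 : S ((T - 1) v) = 0 := by
    rw [← Module.End.mul_apply, hS, geom_sum_mul]
    simp [hv]
  have hc : Commute S (T - 1) :=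
    Commute.sum_left _ _ _ fun i _ =>
      ((Commute.refl T).pow_left i).sub_right (Commute.one_right _)
  have h2 : ∀ j : ℕ, ((T - 1) ^ j) ((T - 1) v) = 0 → (T - 1) v = 0 := by
    intro j
    induction j with
    | zero => simp
    | succ j ih =>
      intro h
      apply ih
      set w := ((T - 1) ^ j) ((T - 1) v) with hw
      have e1 : T w = w := by
        rw [pow_succ', Module.End.mul_apply, ← hw] at h
        simpa [sub_eq_zero] using h
      have e2 : ∀ i : ℕ, (T ^ i) w = w := by
        intro i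
        induction i with
        | zero => simp
        | succ i ih => rw [pow_succ, Module.End.mul_apply, e1, ih]
      have e3 : S w = (N : ℚ) • w := by
        rw [hS, LinearMap.sum_apply]
        simp only [e2, Finset.sum_const, Finset.card_range]
        exact (Nat.cast_smul_eq_nsmul ℚ N w).symm
      have e4 : S w = 0 := by
        rw [hw, ← Module.End.mul_apply, (hc.pow_right j).eq, Module.End.mul_apply, h1, map_zero]
      rw [e4] at e3
      have hN' : (N : ℚ) ≠ 0 := by exact_mod_cast hN.ne'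
      exact (smul_eq_zero.1 e3.symm).resolve_left hN'
  obtain ⟨k, hk⟩ := hT
  have := h2 k (by rw [hk]; simp)
  simpa [sub_eq_zero] using this

theorem pick (T : Module.End ℚ U) (hT : IsNilpotent (T - 1)) (S : U → Prop)
    (hS : ∀ v, S v → S (T v - v)) (v : U) (hv : S v) (h0 : v ≠ 0) :
    ∃ w, S w ∧ w ≠ 0 ∧ T w = w := by
  obtain ⟨k, hk⟩ := hT
  have h : ((T - 1) ^ k) v = 0 := by rw [hk]; simp
  clear hk
  induction k generalizing v with
  | zero => exact absurd (by simpa using h) h0
  | succ k ih =>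
    by_cases h1 : T v - v = 0
    · exact ⟨v, hv, h0, sub_eq_zero.1 h1⟩
    · refine ih (T v - v) (hS v hv) h1 ?_
      rw [pow_succ, Module.End.mul_apply] at h
      simpa using h

/-- stabiliser of a vector -/
def stab (σ : GG →* Module.End ℚ U) (v : U) : Subgroup GG where
  carrier := {g | σ g v = v}
  mul_mem' := fun {g h} hg hh => by
    simp only [Set.mem_ofPred_eq] at hg hh ⊢
    rw [map_mul, Module.End.mul_apply, hh, hg]
  one_mem' := by simp
  inv_mem' := fun {g} hg => by
    simp only [Set.mem_ofPred_eq] at hg ⊢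
    conv_lhs => rw [← hg]
    rw [← Module.End.mul_apply, ← map_mul, inv_mul_cancel, map_one, Module.End.one_apply]

theorem exists_fixed [Nontrivial U] (σ : GG →* Module.End ℚ U)
    (hσ : ∀ g, IsNilpotent (σ g - 1)) : ∃ v : U, v ≠ 0 ∧ ∀ g, σ g v = v := by
  obtain ⟨v0, h0⟩ := exists_ne (0 : U)
  have hz : ∀ g v, σ gz (σ g v) = σ g (σ gz v) := by
    intro g v
    rw [← Module.End.mul_apply, ← map_mul, cen_gz.comm, map_mul, Module.End.mul_apply]
  obtain ⟨v1, -, h1, z1⟩ := pick (σ gz) (hσ _) (fun _ => True) (fun _ _ => trivial) v0 trivial h0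
  obtain ⟨v2, z2, h2, x2⟩ := pick (σ gx) (hσ _) (fun v => σ gz v = v)
    (fun v hv => by rw [map_sub, hz, hv]) v1 z1 h1
  obtain ⟨v3, ⟨-, x3⟩, h3, y3⟩ := pick (σ gy) (hσ _) (fun v => σ gz v = v ∧ σ gx v = v)
    (fun v hv => ⟨by rw [map_sub, hz, hv.1], by
      rw [map_sub, hv.2, ← Module.End.mul_apply, ← map_mul, xy_eq, map_mul, map_mul,
        Module.End.mul_apply, Module.End.mul_apply, hv.2, hz, hv.1]⟩) v2 ⟨z2, x2⟩ h2
  refine ⟨v3, h3, fun g => ?_⟩
  obtain ⟨N, hN, hP⟩ := pow_mem_of (stab σ v3) x3 y3 g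
  refine fixed_of_pow (σ g) (hσ g) hN ?_
  rw [← map_pow]
  exact hP

theorem nilp_of_ker (A Φ : Module.End ℚ U) (hc : Commute A Φ) (h : ∀ f, Φ f = 0 → A f = 0)
    (hΦ : IsNilpotent Φ) : IsNilpotent A := by
  have : ∀ (n : ℕ) f, (Φ ^ n) f = 0 → (A ^ n) f = 0 := by
    intro n
    induction n with
    | zero => simp
    | succ n ih =>
      intro f hf
      rw [pow_succ', Module.End.mul_apply] at hf
      have h1 := h _ hf
      rw [← Module.End.mul_apply, (hc.pow_right n).eq, Module.End.mul_apply] at h1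
      rw [pow_succ, Module.End.mul_apply]
      exact ih _ h1
  obtain ⟨n, hn⟩ := hΦ
  exact ⟨n, LinearMap.ext fun f => this n f (by rw [hn]; simp)⟩

end Fixed

variable {M : Type*} [AddCommGroup M]

/-- the contragredient action on additive maps to the rationals -/
def dualRep (ρ : GG →* Module.End ℤ M) : GG →* Module.End ℚ (M →+ ℚ) where
  toFun g :=
    { toFun := fun f => f.comp (ρ g⁻¹).toAddMonoidHom
      map_add' := fun _ _ => rfl
      map_smul' := fun _ _ => rfl }
  map_one' := by ext f m; simp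
  map_mul' g h := by ext f m; simp

@[simp] theorem dualRep_apply (ρ : GG →* Module.End ℤ M) (g : GG) (f : M →+ ℚ) (m : M) :
    dualRep ρ g f m = f (ρ g⁻¹ m) := rfl

theorem dualRep_pow (ρ : GG →* Module.End ℤ M) (g : GG) (k : ℕ) (f : M →+ ℚ) (m : M) :
    ((dualRep ρ g - 1) ^ k) f m = f (((ρ g⁻¹ - 1) ^ k) m) := by
  induction k generalizing m with
  | zero => simp
  | succ k ih =>
    rw [pow_succ', pow_succ, Module.End.mul_apply, Module.End.mul_apply]
    simp only [LinearMap.sub_apply, Module.End.one_apply, AddMonoidHom.sub_apply, dualRep_apply,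
      ih, map_sub]

theorem Cen.inv {w : GG} (h : Cen w) : Cen w⁻¹ := ⟨by simp [h.1], by simp [h.2]⟩

theorem cen_unip (ρ : GG →* Module.End ℤ M) (π : GG → M)
    (hπ : ∀ g h, π (g * h) = π g + ρ g (π h)) (hs : Function.Surjective π) {w : GG}
    (hw : Cen w) : IsNilpotent (ρ w - 1) :=
  unipotent ρ π hπ hs w
    (fun g => by rw [Commute, SemiconjBy, ← map_mul, ← map_mul, hw.comm])
    (fun g => by rw [hw.comm])

theorem dual_unip (ρ : GG →* Module.End ℤ M) (π : GG → M)
    (hπ : ∀ g h, π (g * h) = π g + ρ g (π h)) (hs : Function.Surjective π) (g : GG) :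
    IsNilpotent (dualRep ρ g - 1) := by
  have hcen : ∀ w, Cen w → IsNilpotent (dualRep ρ w - 1) := by
    intro w hw
    obtain ⟨k, hk⟩ := cen_unip ρ π hπ hs hw.inv
    exact ⟨k, by ext f m; rw [dualRep_pow, hk]; simp⟩
  have hcomm : ∀ w, Cen w → ∀ g m, ρ w (ρ g m) = ρ g (ρ w m) := by
    intro w hw g m
    rw [← Module.End.mul_apply, ← map_mul, hw.comm, map_mul, Module.End.mul_apply]
  let W' : Set (M →+ ℚ) := {f | ∀ w, Cen w → (∀ m, f (ρ w m) = f m) ∧ f (π w) = 0}
  let N : Submodule ℤ M :=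
    { carrier := {m | ∀ f ∈ W', f m = 0}
      add_mem' := fun {a b} ha hb f hf => by rw [map_add, ha f hf, hb f hf, add_zero]
      zero_mem' := fun f _ => map_zero f
      smul_mem' := fun c a ha f hf => by rw [map_zsmul, ha f hf, smul_zero] }
  have hN : ∀ g, N ≤ N.comap (ρ g) := by
    intro g m hm f hf
    refine hm (f.comp (ρ g).toAddMonoidHom) fun w hw => ⟨fun m => ?_, ?_⟩
    · show f (ρ g (ρ w m)) = f (ρ g m)
      rw [← hcomm w hw, (hf w hw).1]
    · show f (ρ g (π w)) = 0
      have := key_id ρ π hπ (g := g) (h := w) (by rw [hw.comm])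
      simp only [LinearMap.sub_apply, Module.End.one_apply] at this
      rw [sub_eq_iff_eq_add.1 this, map_add, map_sub, (hf w hw).1, (hf w hw).2]
      simp
  let ρ' : GG →* Module.End ℤ (M ⧸ N) := Representation.quotient ρ N hN
  have hρ' : ∀ g m, ρ' g (N.mkQ m) = N.mkQ (ρ g m) := fun g m => rfl
  have hw1 : ∀ w, Cen w → ρ' w = 1 := by
    intro w hw
    refine LinearMap.ext fun q => ?_
    obtain ⟨m, rfl⟩ := N.mkQ_surjective q
    rw [hρ', Module.End.one_apply, Submodule.mkQ_apply, Submodule.mkQ_apply,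
      Submodule.Quotient.eq]
    intro f hf
    rw [map_sub, (hf w hw).1, sub_self]
  have hw0 : ∀ w, Cen w → N.mkQ (π w) = 0 := by
    intro w hw
    rw [Submodule.mkQ_apply, Submodule.Quotient.mk_eq_zero]
    exact fun f hf => (hf w hw).2
  obtain ⟨k, hk⟩ := unipotent ρ' (fun g => N.mkQ (π g))
    (fun g h => by rw [hπ, map_add, hρ']) (N.mkQ_surjective.comp hs) g⁻¹
    (fun h => by
      obtain ⟨w, hw, -, e⟩ := exists_comm h g⁻¹
      rw [Commute, SemiconjBy, ← map_mul, ← map_mul, e, map_mul, hw1 w hw, one_mul])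
    (fun h => by
      obtain ⟨w, hw, -, e⟩ := exists_comm h g⁻¹
      rw [e, hπ w, map_add, hw0 w hw, ← hρ', hw1 w hw, zero_add, Module.End.one_apply])
  have hk' : ∀ (j : ℕ) m, ((ρ' g⁻¹ - 1) ^ j) (N.mkQ m) = N.mkQ (((ρ g⁻¹ - 1) ^ j) m) := by
    intro j
    induction j with
    | zero => simp
    | succ j ih =>
      intro m
      rw [pow_succ', pow_succ', Module.End.mul_apply, Module.End.mul_apply, ih]
      simp only [LinearMap.sub_apply, Module.End.one_apply, map_sub, hρ']
  have hmem : ∀ m, ((ρ g⁻¹ - 1) ^ k) m ∈ N := by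
    intro m
    rw [← Submodule.Quotient.mk_eq_zero, ← Submodule.mkQ_apply, ← hk', hk, LinearMap.zero_apply]
  have hA : IsNilpotent ((dualRep ρ g - 1) ^ (k + 1)) := by
    refine nilp_of_ker _ (dualRep ρ gz - 1) ?_ ?_ (hcen _ cen_gz)
    · refine Commute.pow_left ?_ _
      refine Commute.sub_left (Commute.sub_right ?_ (Commute.one_right _)) (Commute.one_left _)
      rw [Commute, SemiconjBy, ← map_mul, ← map_mul, cen_gz.comm]
    · intro f hf
      have hz : gz ∈ stab (dualRep ρ) f := by
        show dualRep ρ gz f = f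
        simpa [sub_eq_zero] using hf
      have hinv : ∀ w, Cen w → ∀ m, f (ρ w m) = f m := by
        intro w hw m
        have : dualRep ρ w⁻¹ f = f := by
          refine fixed_of_pow _ (hcen _ hw.inv) (cc w⁻¹).den_pos ?_
          rw [← map_pow, hw.inv.pow_eq]
          exact (stab (dualRep ρ) f).zpow_mem hz _
        have := congrArg (fun φ : M →+ ℚ => φ m) this
        simpa using this
      ext m
      rw [dualRep_pow, pow_succ', Module.End.mul_apply]
      refine hmem m (f.comp (ρ g⁻¹ - 1).toAddMonoidHom) fun w hw => ⟨fun m => ?_, ?_⟩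
      · show f (ρ g⁻¹ (ρ w m) - ρ w m) = f (ρ g⁻¹ m - m)
        rw [← hcomm w hw, map_sub, map_sub, hinv w hw, hinv w hw]
      · show f ((ρ g⁻¹ - 1) (π w)) = 0
        rw [key_id ρ π hπ (g := g⁻¹) (h := w) (by rw [hw.comm])]
        simp [hinv w hw]
  exact hA.of_pow

end Pool.Agent.Lib.MP_790f3b_al
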