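import Mathlib
import Pool.Agent.Lib.MP_790f3b_al.Dual

set_option autoImplicit false

namespace Pool.Agent.Lib.MP_790f3b_al

theorem exists_linear (Γ : AddSubgroup ((ℚ × ℚ) × ℚ))
    (h : ∀ t : ℚ, ((0, 0), t) ∈ Γ → t = 0) :
    ∃ α β : ℚ, ∀ a b t : ℚ, ((a, b), t) ∈ Γ → t = α * a + β * b := by
  obtain ⟨F, hF⟩ := (Module.Baer.of_divisible ℚ).extension_property_addMonoidHom
    ((AddMonoidHom.fst (ℚ × ℚ) ℚ).comp Γ.subtype) (by
      rw [injective_iff_map_eq_zero]
      rintro ⟨⟨v, t⟩, hv⟩ h0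
      have h1 : v = 0 := h0
      subst h1
      have := h t hv
      subst this
      rfl) ((AddMonoidHom.snd (ℚ × ℚ) ℚ).comp Γ.subtype)
  refine ⟨F (1, 0), F (0, 1), fun a b t ht => ?_⟩
  have h1 : F (a, b) = t := congrArg (fun φ : Γ →+ ℚ => φ ⟨_, ht⟩) hF
  have h2 : ((a, b) : ℚ × ℚ) = a • ((1, 0) : ℚ × ℚ) + b • ((0, 1) : ℚ × ℚ) := by simp
  rw [← h1, h2, map_add, map_rat_smul, map_rat_smul, smul_eq_mul, smul_eq_mul, mul_comm a,
    mul_comm b]

variable {M : Type*} [AddCommGroup M]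

theorem pi_one (ρ : GG →* Module.End ℤ M) (π : GG → M)
    (hπ : ∀ g h, π (g * h) = π g + ρ g (π h)) : π 1 = 0 := by
  have := hπ 1 1
  simpa using this

/-- an additive functional killing the second layer kills the first one -/
theorem layer (ρ : GG →* Module.End ℤ M) (π : GG → M)
    (hπ : ∀ g h, π (g * h) = π g + ρ g (π h)) (hs : Function.Surjective π) (f : M →+ ℚ)
    (hf : ∀ g h m, f (ρ g (ρ h m - m) - (ρ h m - m)) = 0) (g : GG) (m : M) :
    f (ρ g m) = f m := by
  let B : GG → GG → ℚ := fun g h => f (ρ g (π h) - π h)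
  have hB1 : ∀ g g' h, B (g * g') h = B g h + B g' h := by
    intro g g' h
    have := hf g g' (π h)
    simp only [B, map_mul, Module.End.mul_apply, map_sub] at this ⊢
    linarith
  have hB2 : ∀ g h h', B g (h * h') = B g h + B g h' := by
    intro g h h'
    have := hf g h (π h')
    simp only [B, hπ, map_add, map_sub] at this ⊢
    linarith
  have hB : ∀ g h, B g h = ca g * (ca h * B gx gx + cb h * B gx gy) +
      cb g * (ca h * B gy gx + cb h * B gy gy) := by
    intro g h
    rw [add_map_eq (fun g => B g h) (fun g g' => hB1 g g' h) g,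
      add_map_eq (B gx) (hB2 gx) h, add_map_eq (B gy) (hB2 gy) h]
  have hχ : ∀ g h, f (π (g * h)) = f (π g) + f (π h) + B g h := by
    intro g h
    simp only [B, hπ, map_add, map_sub]; ring
  have h1 : f (π 1) = 0 := by rw [pi_one ρ π hπ, map_zero]
  set γ := f (π gz) with hγ
  have hcen : ∀ w, Cen w → f (π w) = cc w * γ := by
    have hBc : ∀ g w, Cen w → B g w = 0 := fun g w hw => by rw [hB, hw.1, hw.2]; ring
    have hpow : ∀ w, Cen w → ∀ n : ℕ, f (π (w ^ n)) = n * f (π w) := by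
      intro w hw n
      induction n with
      | zero => simp [h1]
      | succ n ih => rw [pow_succ, hχ, ih, hBc _ _ hw]; push_cast; ring
    have hinv : ∀ w, Cen w → f (π w⁻¹) = -f (π w) := by
      intro w hw
      have := hχ w⁻¹ w
      rw [inv_mul_cancel, h1, hBc _ _ hw] at this
      linarith
    have hz : ∀ n : ℤ, f (π (gz ^ n)) = n * γ := by
      intro n
      obtain ⟨m, rfl | rfl⟩ := n.eq_nat_or_neg
      · rw [zpow_natCast, hpow _ cen_gz]; simp [hγ]
      · rw [zpow_neg, zpow_natCast, hinv _ ⟨by simp, by simp⟩, hpow _ cen_gz]; simp [hγ]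
    intro w hw
    have e := hpow w hw (cc w).den
    rw [hw.pow_eq, hz, ← Rat.mul_den_eq_num] at e
    have hd : ((cc w).den : ℚ) ≠ 0 := by exact_mod_cast (cc w).den_nz
    apply mul_left_cancel₀ hd
    rw [← e]; ring
  have hanti : ∀ g h, B g h - B h g = (ca g * cb h - ca h * cb g) * γ := by
    intro g h
    obtain ⟨w, hw, hc, e⟩ := exists_comm g h
    have e1 := hχ g h
    rw [e, hχ, hχ, hcen w hw, hc, hB w, hw.1, hw.2] at e1
    linarith
  -- the right kernel of `B`
  let K : GG → Prop := fun k => ∀ g, B g k = 0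
  have hKB : ∀ g h, ∃ k, K k ∧ f (π k) = B g h := by
    intro g h
    obtain ⟨k, hk⟩ := hs (ρ g (π h) - π h)
    exact ⟨k, fun g' => by simp only [B, hk]; exact hf _ _ _, by rw [hk]⟩
  have hK1 : K 1 := fun g => by rw [hB]; simp
  have hKmul : ∀ k k', K k → K k' → K (k * k') := fun k k' h h' g => by
    rw [hB2, h, h', add_zero]
  have hKinv : ∀ k, K k → K k⁻¹ := fun k h g => by
    have := hB2 g k k⁻¹
    rw [mul_inv_cancel, hK1, h] at this
    linarith
  have hdet : ∀ k k', K k → K k' → (ca k * cb k' - ca k' * cb k) * γ = 0 := fun k k' h h' => by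
    rw [← hanti, h, h', sub_self]
  let Γ : AddSubgroup ((ℚ × ℚ) × ℚ) :=
    { carrier := {v | ∃ k, K k ∧ v = ((ca k, cb k), f (π k) - cc k * γ)}
      add_mem' := by
        rintro _ _ ⟨k, hk, rfl⟩ ⟨k', hk', rfl⟩
        refine ⟨k * k', hKmul _ _ hk hk', ?_⟩
        have := hdet k k' hk hk'
        simp only [Prod.mk_add_mk, ca_mul, cb_mul, cc_mul, hχ, hk' k, Prod.mk.injEq, true_and]
        linarith
      zero_mem' := ⟨1, hK1, by simp [h1]; rfl⟩
      neg_mem' := by
        rintro _ ⟨k, hk, rfl⟩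
        refine ⟨k⁻¹, hKinv _ hk, ?_⟩
        have := hχ k⁻¹ k
        rw [inv_mul_cancel, h1, hk] at this
        simp only [Prod.neg_mk, ca_inv, cb_inv, cc_inv, Prod.mk.injEq, true_and]
        linarith }
  obtain ⟨α, β, hαβ⟩ := exists_linear Γ (by
    rintro t ⟨k, -, hk⟩
    simp only [Prod.mk.injEq] at hk
    rw [hk.2, hcen k ⟨hk.1.1.symm, hk.1.2.symm⟩, sub_self])
  have hlin : ∀ k, K k → f (π k) = α * ca k + β * cb k + γ * cc k := by
    intro k hk
    have := hαβ _ _ _ ⟨k, hk, rfl⟩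
    linarith
  have hdir : ∀ j : ℕ, j < 5 → j.Coprime 5 →
      B gx gx + j * (B gx gy + B gy gx) + j ^ 2 * B gy gy = 0 := by
    intro j hj5 hj
    by_contra hne
    set s := B gx gx + j * (B gx gy + B gy gx) + j ^ 2 * B gy gy with hs'
    obtain ⟨p, hp1, hp, hpj⟩ := Nat.forall_exists_prime_gt_and_modEq
      (2 + (α / s).den + (β / s).den + (γ / s).den) (by norm_num : 5 ≠ 0) hj
    have : Fact p.Prime := ⟨hp⟩
    have hp2 : p ≠ 2 := by omega
    have hpj' : p % 5 = j := by
      rw [Nat.ModEq, Nat.mod_eq_of_lt hj5] at hpj; exact hpj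
    have hp0 : (p : ℚ) ≠ 0 := by exact_mod_cast hp.ne_zero
    obtain ⟨g, ga, gb⟩ := exists_div p hp2
    obtain ⟨k, hk, e⟩ := hKB g g
    rw [hlin k hk, hB, ga, gb, hpj'] at e
    obtain ⟨b1, b2, b3⟩ := bounded k p hp2
    apply inv_self_not_mem_Loc (p := p)
    have e2 : (p : ℚ)⁻¹ = α / s * (p * ca k) + β / s * (p * cb k) + γ / s * (p * cc k) := by
      have e3 : α * ca k + β * cb k + γ * cc k = s * ((p : ℚ)⁻¹ * (p : ℚ)⁻¹) := by
        rw [e, hs']; ring
      have e4 : α / s * (p * ca k) + β / s * (p * cb k) + γ / s * (p * cc k) =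
          p / s * (α * ca k + β * cb k + γ * cc k) := by ring
      rw [e4, e3]
      field_simp
    rw [e2]
    exact (Loc p).add_mem ((Loc p).add_mem
      ((Loc p).mul_mem (mem_Loc_of_lt (by omega)) b1)
      ((Loc p).mul_mem (mem_Loc_of_lt (by omega)) b2))
      ((Loc p).mul_mem (mem_Loc_of_lt (by omega)) b3)
  have d1 := hdir 1 (by norm_num) (by norm_num)
  have d2 := hdir 2 (by norm_num) (by norm_num)
  have d3 := hdir 3 (by norm_num) (by norm_num)
  have d4 := hanti gx gy
  simp only [ca_gx, cb_gx, ca_gy, cb_gy] at d4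
  push_cast at d1 d2 d3
  have exx : B gx gx = 0 := by linarith
  have eyy : B gy gy = 0 := by linarith
  have exy : B gx gy = γ / 2 := by linarith
  have eyx : B gy gx = -(γ / 2) := by linarith
  have hγ0 : γ = 0 := by
    by_contra hne
    obtain ⟨k, hk, e⟩ := hKB gx gy
    have k1 := hk gx
    have k2 := hk gy
    rw [hB, exx, eyy, exy, eyx] at k1 k2
    simp only [ca_gx, cb_gx, ca_gy, cb_gy] at k1 k2
    have kb : cb k = 0 := by
      have : cb k * γ = 0 := by linarith
      exact (mul_eq_zero.1 this).resolve_right hne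
    have ka : ca k = 0 := by
      have : ca k * γ = 0 := by linarith
      exact (mul_eq_zero.1 this).resolve_right hne
    rw [hcen k ⟨ka, kb⟩, exy] at e
    apply cen_ne_half (w := k) ⟨ka, kb⟩
    apply mul_right_cancel₀ hne
    rw [e]; ring
  obtain ⟨h, rfl⟩ := hs m
  have := hB g h
  rw [exx, eyy, exy, eyx, hγ0] at this
  simp only [B, map_sub] at this
  linarith

theorem not_torsion (ρ : GG →* Module.End ℤ M) (π : GG → M)
    (hπ : ∀ g h, π (g * h) = π g + ρ g (π h)) (hb : Function.Bijective π) (n : ℕ) (hn : 0 < n) :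
    n • π gz ≠ 0 := by
  intro h0
  obtain ⟨k, hk⟩ := cen_unip ρ π hπ hb.2 cen_gz
  set φ := ρ gz - 1 with hφ
  have hstep : ∀ (i j : ℕ) (v : M), n • v = 0 →
      ∃ v', n • v' = 0 ∧ ρ (gz ^ i) ((φ ^ j) v) - (φ ^ j) v = (φ ^ (j + 1)) v' := by
    intro i j v hv
    refine ⟨(∑ l ∈ Finset.range i, ρ gz ^ l) v, by rw [← map_nsmul, hv, map_zero], ?_⟩
    have hc : Commute (ρ gz ^ i - 1) (φ ^ j) := by
      refine Commute.pow_right (Commute.sub_left ?_ (Commute.one_left _)) _
      exact ((Commute.refl _).pow_left i).sub_right (Commute.one_right _)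
    have e : φ ^ (j + 1) * (∑ l ∈ Finset.range i, ρ gz ^ l) = (ρ gz ^ i - 1) * φ ^ j := by
      rw [pow_succ, mul_assoc, hφ, mul_geom_sum, ← hφ, hc.eq]
    rw [← Module.End.mul_apply (φ ^ (j + 1)), e, map_pow]
    simp
  have main : ∀ j : ℕ, ∃ N : ℕ, 0 < N ∧ ∃ v, n • v = 0 ∧ π (gz ^ N) = (φ ^ j) v := by
    intro j
    induction j with
    | zero => exact ⟨1, one_pos, π gz, h0, by simp⟩
    | succ j ih =>
      obtain ⟨N, hN, v, hv, e⟩ := ih
      have : ∀ i : ℕ, ∃ v', n • v' = 0 ∧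
          π (gz ^ (N * i)) = i • (φ ^ j) v + (φ ^ (j + 1)) v' := by
        intro i
        induction i with
        | zero => exact ⟨0, by simp, by simp [pi_one ρ π hπ]⟩
        | succ i ih =>
          obtain ⟨v', hv', e'⟩ := ih
          obtain ⟨v'', hv'', e''⟩ := hstep (N * i) j v hv
          refine ⟨v' + v'', by rw [nsmul_add, hv', hv'', add_zero], ?_⟩
          rw [mul_add, mul_one, pow_add, hπ, e', e, map_add, ← e'', succ_nsmul]
          abel
      obtain ⟨v', hv', e'⟩ := this n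
      refine ⟨N * n, Nat.mul_pos hN hn, v', hv', ?_⟩
      rw [e', ← map_nsmul, hv, map_zero, zero_add]
  obtain ⟨N, hN, v, -, e⟩ := main k
  rw [hk, LinearMap.zero_apply, ← pi_one ρ π hπ] at e
  have := congrArg cc (hb.1 e)
  simp at this
  omega

theorem exists_functional (u : M) (hu : ∀ n : ℕ, 0 < n → n • u ≠ 0) :
    ∃ f : M →+ ℚ, f u = 1 := by
  obtain ⟨F, hF⟩ := (Module.Baer.of_divisible ℚ).extension_property_addMonoidHom
    (zmultiplesHom M u) (by
      rw [injective_iff_map_eq_zero]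
      intro n hn
      by_contra h
      apply hu n.natAbs (Int.natAbs_pos.2 h)
      have : n • u = 0 := hn
      rw [← natCast_zsmul]
      rcases Int.natAbs_eq n with e | e
      · rw [← e, this]
      · have e' : (n.natAbs : ℤ) = -n := by omega
        rw [e', neg_smul, this, neg_zero]) (Int.castAddHom ℚ)
  refine ⟨F, ?_⟩
  have := congrArg (fun φ : ℤ →+ ℚ => φ 1) hF
  simpa using this

/-- there is no bijective 1-cocycle from `GG` to an abelian group -/
theorem no_cocycle (ρ : GG →* Module.End ℤ M) (π : GG → M)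
    (hπ : ∀ g h, π (g * h) = π g + ρ g (π h)) (hb : Function.Bijective π) : False := by
  let W₀ : Submodule ℚ (M →+ ℚ) := Representation.invariants (dualRep ρ)
  have hW₀ : ∀ f, f ∈ W₀ ↔ ∀ g, dualRep ρ g f = f := fun f => Iff.rfl
  have hinv : ∀ g, W₀ ≤ W₀.comap (dualRep ρ g) := by
    intro g f hf
    show dualRep ρ g f ∈ W₀
    rw [(hW₀ f).1 hf g]; exact hf
  let σ : GG →* Module.End ℚ ((M →+ ℚ) ⧸ W₀) := Representation.quotient (dualRep ρ) W₀ hinv
  have hσ : ∀ g f, σ g (W₀.mkQ f) = W₀.mkQ (dualRep ρ g f) := fun g f => rfl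
  have hnt : Nontrivial ((M →+ ℚ) ⧸ W₀) := by
    rw [Submodule.Quotient.nontrivial_iff]
    intro htop
    obtain ⟨f, hf⟩ := exists_functional (π gz) (not_torsion ρ π hπ hb)
    have hf0 : ∀ g m, f (ρ g m) = f m := by
      intro g m
      have := (hW₀ f).1 (by rw [htop]; trivial) g⁻¹
      simpa using congrArg (fun φ : M →+ ℚ => φ m) this
    have := add_map_eq (fun g => f (π g)) (fun g h => by simp only [hπ, map_add, hf0]) gz
    simp [hf] at this
  obtain ⟨v, hv0, hv⟩ := exists_fixed σ (fun g => by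
    obtain ⟨k, hk⟩ := dual_unip ρ π hπ hb.2 g
    have hk' : ∀ (j : ℕ) f, ((σ g - 1) ^ j) (W₀.mkQ f) = W₀.mkQ (((dualRep ρ g - 1) ^ j) f) := by
      intro j
      induction j with
      | zero => simp
      | succ j ih =>
        intro m
        rw [pow_succ', pow_succ', Module.End.mul_apply, Module.End.mul_apply, ih]
        simp only [LinearMap.sub_apply, Module.End.one_apply, map_sub, hσ]
    refine ⟨k, LinearMap.ext fun q => ?_⟩
    obtain ⟨f, rfl⟩ := W₀.mkQ_surjective q
    rw [hk', hk]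
    simp)
  obtain ⟨f, rfl⟩ := W₀.mkQ_surjective v
  apply hv0
  rw [Submodule.mkQ_apply, Submodule.Quotient.mk_eq_zero, hW₀]
  have h2 : ∀ g h m, f (ρ g (ρ h m - m) - (ρ h m - m)) = 0 := by
    intro g h m
    have e1 := hv g⁻¹
    rw [hσ, Submodule.mkQ_apply, Submodule.mkQ_apply, Submodule.Quotient.eq, hW₀] at e1
    have e2 := congrArg (fun φ : M →+ ℚ => φ m) (e1 h⁻¹)
    simp only [dualRep_apply, inv_inv, AddMonoidHom.sub_apply] at e2
    simp only [map_sub]
    linarith
  intro g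
  ext m
  exact layer ρ π hπ hb.2 f h2 g⁻¹ m

end Pool.Agent.Lib.MP_790f3b_al
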